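import Pool.Agent.W321.SQ.Stm

set_option autoImplicit false

namespace Pool.Agent.W864.SQ

open Finset Pool.Agent.W321.SP Pool.Agent.W321.SQ

section

variable {V : Type} [Fintype V] [DecidableEq V] {v : V} {par : V → V} {rk : V → ℕ}
  {L M K : Finset V}

/-- the vertices other than the root and the leaves at the root -/
def RR (v : V) (L : Finset V) : Finset V := (univ.erase v) \ L

/-- vertices whose parent is not the root -/
def SS (v : V) (par : V → V) : Finset V := univ.filter (fun x => x ≠ v ∧ par x ≠ v)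

/-- children of the root outside of `L` -/
def B1 (v : V) (par : V → V) (L : Finset V) : Finset V := (RR v L).filter (fun x => par x = v)

/-- vertices with a sibling, not children of the root -/
def B2 (v : V) (par : V → V) : Finset V :=
  (SS v par).filter (fun c => ∃ y ∈ SS v par, y ≠ c ∧ par y = par c)

/-- special vertices -/
def BB (v : V) (par : V → V) (L : Finset V) : Finset V := B1 v par L ∪ B2 v par

theorem mem_RR (x : V) : x ∈ RR v L ↔ x ≠ v ∧ x ∉ L := by
  simp [RR]

theorem mem_SS (x : V) : x ∈ SS v par ↔ x ≠ v ∧ par x ≠ v := by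
  simp [SS]

theorem SS_sub (hL : ∀ x, x ∈ L ↔ x ≠ v ∧ par x = v ∧ Chl V v par x) : SS v par ⊆ RR v L := by
  intro x hx
  rw [mem_SS] at hx
  rw [mem_RR]
  refine ⟨hx.1, fun h => ?_⟩
  exact hx.2 ((hL x).1 h).2.1

theorem M_sub (hL : ∀ x, x ∈ L ↔ x ≠ v ∧ par x = v ∧ Chl V v par x)
    (hM : ∀ x, x ∈ M ↔ x ≠ v ∧ par x ≠ v ∧ Chl V v par x) : M ⊆ RR v L := by
  intro x hx
  rw [hM] at hx
  rw [mem_RR]
  refine ⟨hx.1, fun h => ?_⟩
  exact hx.2.1 ((hL x).1 h).2.1

/-- the parent of a vertex of `SS` is in `RR` -/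
theorem par_mem (hL : ∀ x, x ∈ L ↔ x ≠ v ∧ par x = v ∧ Chl V v par x) (x : V)
    (hx : x ∈ SS v par) : par x ∈ RR v L := by
  rw [mem_SS] at hx
  rw [mem_RR]
  refine ⟨hx.2, fun h => ?_⟩
  exact ((hL _).1 h).2.2 x hx.1 rfl

theorem card_R (hL : ∀ x, x ∈ L ↔ x ≠ v ∧ par x = v ∧ Chl V v par x) :
    (B1 v par L).card + (SS v par).card = (RR v L).card := by
  have h := Finset.card_filter_add_card_filter_not (s := RR v L) (fun x => par x = v)
  rw [← h]
  congr 1
  congr 1
  ext x
  constructor
  · intro hx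
    have := SS_sub hL hx
    rw [mem_filter]
    exact ⟨this, ((mem_SS x).1 hx).2⟩
  · intro hx
    rw [mem_filter, mem_RR] at hx
    rw [mem_SS]
    exact ⟨hx.1.1, hx.2⟩

theorem card_BB (hL : ∀ x, x ∈ L ↔ x ≠ v ∧ par x = v ∧ Chl V v par x)
    (hM : ∀ x, x ∈ M ↔ x ≠ v ∧ par x ≠ v ∧ Chl V v par x) :
    (BB v par L).card ≤ 2 * M.card := by
  have h1 : (SS v par).card =
      ∑ p ∈ RR v L, ((SS v par).filter (fun x => par x = p)).card :=
    Finset.card_eq_sum_card_fiberwise (fun x hx => par_mem hL x hx)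
  have h2 : (B2 v par).card =
      ∑ p ∈ RR v L, ((B2 v par).filter (fun x => par x = p)).card :=
    Finset.card_eq_sum_card_fiberwise (fun x hx => par_mem hL x (mem_filter.1 hx).1)
  have h3 : ∑ p ∈ RR v L, (((B2 v par).filter (fun x => par x = p)).card + 2) ≤
      ∑ p ∈ RR v L, (2 * ((SS v par).filter (fun x => par x = p)).card +
        2 * (if p ∈ M then 1 else 0)) := by
    apply Finset.sum_le_sum
    intro p hp
    have hsub : (B2 v par).filter (fun x => par x = p) ⊆ (SS v par).filter (fun x => par x = p) := by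
      intro x hx
      rw [mem_filter] at hx ⊢
      exact ⟨(mem_filter.1 hx.1).1, hx.2⟩
    have hle := Finset.card_le_card hsub
    rcases Nat.lt_or_ge ((SS v par).filter (fun x => par x = p)).card 2 with hlt | hge
    · -- no siblings
      have h0 : ((B2 v par).filter (fun x => par x = p)).card = 0 := by
        rw [Finset.card_eq_zero, Finset.filter_eq_empty_iff]
        intro c hc hcp
        obtain ⟨hcS, y, hyS, hyc, hyp⟩ := mem_filter.1 hc
        have hc2 : ({c, y} : Finset V) ⊆ (SS v par).filter (fun x => par x = p) := by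
          intro z hz
          rw [mem_insert, mem_singleton] at hz
          rw [mem_filter]
          rcases hz with rfl | rfl
          · exact ⟨hcS, hcp⟩
          · exact ⟨hyS, hyp.trans hcp⟩
        have := Finset.card_le_card hc2
        rw [Finset.card_pair (Ne.symm hyc)] at this
        omega
      rw [h0]
      rcases Nat.eq_zero_or_pos ((SS v par).filter (fun x => par x = p)).card with hz | hz
      · have hpM : p ∈ M := by
          rw [hM]
          rw [mem_RR] at hp
          have hchl : Chl V v par p := by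
            intro y hy hyp
            rw [Finset.card_eq_zero, Finset.filter_eq_empty_iff] at hz
            refine hz (x := y) ?_ hyp
            rw [mem_SS]
            exact ⟨hy, by rw [hyp]; exact hp.1⟩
          refine ⟨hp.1, fun hpv => ?_, hchl⟩
          exact hp.2 ((hL p).2 ⟨hp.1, hpv, hchl⟩)
        rw [if_pos hpM]
        omega
      · omega
    · omega
  rw [Finset.sum_add_distrib, ← h2, Finset.sum_add_distrib, ← Finset.mul_sum, ← Finset.mul_sum,
    ← h1] at h3
  have h4 : ∑ p ∈ RR v L, (if p ∈ M then 1 else 0) = M.card := by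
    rw [Finset.sum_ite_mem, Finset.inter_eq_right.2 (M_sub hL hM)]
    simp
  rw [h4] at h3
  simp only [Finset.sum_const, smul_eq_mul] at h3
  have h5 := card_R (V := V) hL
  have h6 : (BB v par L).card ≤ (B1 v par L).card + (B2 v par).card := Finset.card_union_le _ _
  omega

/-- Lemma A -/
theorem step_R (hL : ∀ x, x ∈ L ↔ x ≠ v ∧ par x = v ∧ Chl V v par x) (c : V)
    (hc : c ∈ RR v L) (hb : c ∉ BB v par L) : c ∈ SS v par ∧ par c ∈ RR v L := by
  have hS : c ∈ SS v par := by
    rw [mem_SS]
    refine ⟨((mem_RR c).1 hc).1, fun h => hb ?_⟩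
    exact mem_union_left _ (mem_filter.2 ⟨hc, h⟩)
  exact ⟨hS, par_mem hL c hS⟩

/-- Lemma B -/
theorem uniq (hL : ∀ x, x ∈ L ↔ x ≠ v ∧ par x = v ∧ Chl V v par x) (c : V)
    (hc : c ∈ RR v L) (hb : c ∉ BB v par L) (y : V) (hy : y ≠ v) (hp : par y = par c) : y = c := by
  by_contra hne
  obtain ⟨hS, hR⟩ := step_R hL c hc hb
  apply hb
  refine mem_union_right _ (mem_filter.2 ⟨hS, y, ?_, hne, hp⟩)
  rw [mem_SS]
  exact ⟨hy, by rw [hp]; exact ((mem_SS c).1 hS).2⟩

theorem iter_R (hL : ∀ x, x ∈ L ↔ x ≠ v ∧ par x = v ∧ Chl V v par x) (x : V) (hx : x ∈ RR v L)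
    (i : ℕ) (h : ∀ j < i, par^[j] x ∉ BB v par L) : ∀ j ≤ i, par^[j] x ∈ RR v L := by
  intro j
  induction j with
  | zero => intro _; exact hx
  | succ j ih =>
    intro hj
    rw [Function.iterate_succ_apply']
    exact (step_R hL _ (ih (by omega)) (h j (by omega))).2

theorem iter_inj (hL : ∀ x, x ∈ L ↔ x ≠ v ∧ par x = v ∧ Chl V v par x) (x y : V)
    (hx : x ∈ RR v L) (hy : y ∈ RR v L) (i : ℕ) (h : ∀ j < i, par^[j] x ∉ BB v par L)
    (h' : ∀ j < i, par^[j] y ∉ BB v par L) (he : par^[i] x = par^[i] y) :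
    ∀ j ≤ i, par^[i - j] x = par^[i - j] y := by
  intro j
  induction j with
  | zero => intro _; exact he
  | succ j ih =>
    intro hj
    have h1 := ih (by omega)
    have e : i - j = (i - (j + 1)) + 1 := by omega
    rw [e, Function.iterate_succ_apply', Function.iterate_succ_apply'] at h1
    refine uniq hL _ (iter_R hL y hy i h' _ (by omega)) (h' _ (by omega)) _ ?_ h1
    exact ((mem_RR _).1 (iter_R hL x hx i h _ (by omega))).1

theorem iter_rk (hR : Rt V v par rk) (hL : ∀ x, x ∈ L ↔ x ≠ v ∧ par x = v ∧ Chl V v par x) (x : V)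
    (hx : x ∈ RR v L) (i : ℕ) (h : ∀ j < i, par^[j] x ∉ BB v par L) :
    ∀ j ≤ i, rk (par^[j] x) + j = rk x := by
  intro j
  induction j with
  | zero => intro _; rfl
  | succ j ih =>
    intro hj
    have h1 := ih (by omega)
    have h2 := ((mem_RR _).1 (iter_R hL x hx i h j (by omega))).1
    have h3 := hR.rp _ h2
    rw [Function.iterate_succ_apply']
    omega

end

/-- one of the first 69 ancestors is in `F` -/
def isBad {V : Type} (par : V → V) (F : Finset V) (x : V) : Prop := ∃ i, i < 69 ∧ par^[i] x ∈ F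

theorem z_ch : ChStm := by
  intro V _ _ v par rk L M K n hRt hL hM hcard
  classical
  rcases Nat.eq_zero_or_pos n with hn | hn
  · subst hn
    exact ⟨fun _ _ => v, ⟨fun i hi => absurd hi (by omega), fun i hi => absurd hi (by omega),
      fun i hi => absurd hi (by omega), fun i hi => absurd hi (by omega)⟩,
      fun i hi => absurd hi (by omega)⟩
  let F : Finset V := K ∪ BB v par L
  let Bad : Finset V := (RR v L).filter (fun x => isBad par F x)
  have hBad : Bad.card ≤ 69 * F.card := by
    have hex : ∀ x ∈ Bad, isBad par F x := fun x hx => (mem_filter.1 hx).2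
    let mi : V → ℕ := fun x => if h : isBad par F x then Nat.find h else 0
    have hmi : ∀ x ∈ Bad, mi x < 69 ∧ par^[mi x] x ∈ F ∧ ∀ j < mi x, par^[j] x ∉ F := by
      intro x hx
      have h := hex x hx
      have e : mi x = Nat.find h := dif_pos h
      rw [e]
      have hs := Nat.find_spec h
      refine ⟨hs.1, hs.2, fun j hj hjF => Nat.find_min h hj ⟨by omega, hjF⟩⟩
    have hc : Bad.card ≤ ((range 69) ×ˢ F).card := by
      apply Finset.card_le_card_of_injOn (fun x => (mi x, par^[mi x] x))
      · intro x hx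
        have h := hmi x hx
        simp only [coe_product, Set.mem_prod, mem_coe, mem_range]
        exact ⟨h.1, h.2.1⟩
      · intro x hx y hy hxy
        have h1 := congrArg Prod.fst hxy
        have h2 := congrArg Prod.snd hxy
        simp only at h1 h2
        have hx' := hmi x hx
        have hy' := hmi y hy
        rw [← h1] at hy' h2
        have := iter_inj hL x y (mem_filter.1 hx).1 (mem_filter.1 hy).1 (mi x)
          (fun j hj hj' => hx'.2.2 j hj (mem_union_right _ hj'))
          (fun j hj hj' => hy'.2.2 j hj (mem_union_right _ hj')) h2 (mi x) le_rfl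
        simpa using this
    rw [Finset.card_product, Finset.card_range] at hc
    exact hc
  have hF : F.card ≤ K.card + 2 * M.card :=
    le_trans (Finset.card_union_le _ _) (Nat.add_le_add_left (card_BB hL hM) _)
  let Good : Finset V := (RR v L).filter (fun x => ¬ isBad par F x)
  have hsum : Bad.card + Good.card = (RR v L).card :=
    Finset.card_filter_add_card_filter_not (s := RR v L) _
  have hRR : (RR v L).card = ((univ.erase v) \ L).card := rfl
  have hGood : 69 * n ≤ Good.card := by omega
  obtain ⟨r, -, hr⟩ := Finset.exists_le_card_fiber_of_mul_le_card_of_maps_to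
    (s := Good) (t := range 69) (f := fun x => rk x % 69) (n := n)
    (fun x _ => mem_range.2 (Nat.mod_lt _ (by norm_num))) ⟨0, by simp⟩ (by simpa using hGood)
  obtain ⟨G, hG, hGc⟩ := Finset.exists_subset_card_eq hr
  let e := (Finset.equivFinOfCardEq hGc).symm
  let X : ℕ → V := fun i => if h : i < n then (e ⟨i, h⟩ : V) else v
  have hX : ∀ i, i < n → X i ∈ Good ∧ rk (X i) % 69 = r := by
    intro i hi
    have : X i ∈ G := by
      simp only [X, dif_pos hi]
      exact (e ⟨i, hi⟩).2
    have h := hG this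
    rw [mem_filter] at h
    exact h
  have hXinj : ∀ i, i < n → ∀ i', i' < n → X i = X i' → i = i' := by
    intro i hi i' hi' h
    simp only [X, dif_pos hi, dif_pos hi'] at h
    have := e.injective (Subtype.ext h)
    simpa using this
  have hXR : ∀ i, i < n → X i ∈ RR v L := fun i hi => (mem_filter.1 (hX i hi).1).1
  have hXF : ∀ i, i < n → ∀ j, j < 69 → par^[j] (X i) ∉ F := by
    intro i hi j hj hF'
    exact (mem_filter.1 (hX i hi).1).2 ⟨j, hj, hF'⟩
  have hXB : ∀ i, i < n → ∀ j, j < 69 → par^[j] (X i) ∉ BB v par L :=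
    fun i hi j hj h => hXF i hi j hj (mem_union_right _ h)
  have hXK : ∀ i, i < n → ∀ j, j < 69 → par^[j] (X i) ∉ K :=
    fun i hi j hj h => hXF i hi j hj (mem_union_left _ h)
  have hXne : ∀ i, i < n → ∀ j, j < 69 → par^[j] (X i) ≠ v := by
    intro i hi j hj
    exact ((mem_RR _).1 (iter_R hL _ (hXR i hi) 69 (hXB i hi) j (by omega))).1
  refine ⟨fun i j => par^[68 - j] (X i), ⟨?_, ?_, ?_, ?_⟩, ?_⟩
  · intro i hi j hj
    have e1 : 68 - j = (68 - (j + 1)) + 1 := by omega
    show par (par^[68 - (j + 1)] (X i)) = par^[68 - j] (X i)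
    rw [e1, Function.iterate_succ_apply']
  · intro i hi j hj
    exact hXne i hi _ (by omega)
  · intro i hi j hj i' hi' j' hj' h
    have r1 := iter_rk hRt hL _ (hXR i hi) 69 (hXB i hi) (68 - j) (by omega)
    have r2 := iter_rk hRt hL _ (hXR i' hi') 69 (hXB i' hi') (68 - j') (by omega)
    rw [h] at r1
    have m1 := (hX i hi).2
    have m2 := (hX i' hi').2
    have hjj : j = j' := by omega
    subst hjj
    refine ⟨?_, rfl⟩
    apply hXinj i hi i' hi'
    have := iter_inj hL (X i) (X i') (hXR i hi) (hXR i' hi') (68 - j)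
      (fun k hk => hXB i hi k (by omega)) (fun k hk => hXB i' hi' k (by omega)) h (68 - j) le_rfl
    simpa using this
  · intro i hi j hj y hy hyp
    have e1 : 68 - j = (68 - (j + 1)) + 1 := by omega
    rw [e1, Function.iterate_succ_apply'] at hyp
    exact uniq hL _ (iter_R hL _ (hXR i hi) 69 (hXB i hi) _ (by omega)) (hXB i hi _ (by omega)) y hy hyp
  · intro i hi j hj
    exact hXK i hi _ (by omega)

end Pool.Agent.W864.SQ
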